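import Pool.Agent.TH129.NFC.Law
import Pool.Agent.TH129.NFC.Pts
import Pool.Agent.TH129.NFC.Tfae

/-!
# The rank conjecture over number fields as a finite local-global counting law

Let `K` be a number field and `E : y² = x³ + a x + b` an elliptic curve over `K`. Let `N(X)` be the
number of points of `E` over `K` (with the point at infinity) whose `x`-coordinate has height at most
`X` (the multiplicative height relative to `K`). For a finite place `v` of good reduction let `q_v` be
the number of elements of the residue field `k_v` and `#E(k_v)` the number of points of the reduction.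
For real `c` put `w(u) = cos (c u) / Γ(1 + u)` and

`Π_c(X) = ∏_{v good, q_v ≤ e^X} (#E(k_v) / q_v) ^ w(log q_v / log X)`,

a finite product. Let `F` be any continuation of the Hasse-Weil `L`-series of `E` over `K` to `s = 1`
along the real axis (meromorphic at the points of `[1, 2]`; in particular any continuation to `ℂ`). It is
shown that for EVERY number field `K`, EVERY elliptic curve over `K` and every `c > π/2`

`N(X)² / Π_c(X) ≍ (log X) ^ (rank E(K) - ord_{s=1} F)`   (`X → ∞`),

without any hypothesis on the zeros of `F`. So the conjecture of Birch and Swinnerton-Dyer on the rank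
holds for `E` over `K` if and only if

`N(X)² ≍ Π_c(X)`:

the square of the number of `K`-rational points of height at most `X` is, up to bounded factors, a
product over the finite places with `q_v ≤ e^X` of powers of the numbers of points modulo `v` with
universal exponents; neither the rank nor the `L`-series occurs in this law. Even the relation
`log (N(X)² / Π_c(X)) = o(log log X)` along a single sequence `X → ∞` is enough.

Proof. By the theorems of Mordell, Weil and Néron (proved in the imported files)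
`N(X) ~ κ (log X)^(rank/2)`. The smoothed sum over all prime powers is `m log log X + O(1)` by the
rotated law over number fields (starting files). The new part is the passage to the finite product over
the primes: all but finitely many places are places of good reduction for Mathlib's local minimal models
(an integral equation with unit discriminant is minimal) and satisfy Hasse's bound, the cubes and higher
powers contribute `O(∑ q_v^(-3/2))`, the squares contribute
`O(∑ q_v^(-1) |w(2u) - w(u)|) = O(∑ (q_v^(-1-1/T) - q_v^(-1-2/T))) = O(1)` (`T = log X`) by the pole of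
the Dedekind zeta function of `K`, and the primes `q_v > e^X` contribute `o(1)`.
-/

set_option autoImplicit false

namespace Pool.Agent.Results.MP_cd906c_nt.CountingLaw

open Filter Topology Classical NumberField IsDedekindDomain

section

variable {K : Type} [Field K] [NumberField K]

/-- The curve `y² = x³ + a x + b`. -/
def curve (a b : K) : WeierstrassCurve K := { a₁ := 0, a₂ := 0, a₃ := 0, a₄ := a, a₆ := b }

/-- The rank of the group of `K`-rational points of `y² = x³ + a x + b`. -/
noncomputable def rank (a b : K) : ℕ :=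
  Module.finrank ℤ (WeierstrassCurve.Affine.Point (curve a b).toAffine)

/-- The number `N(X)` of points of `y² = x³ + a x + b` over `K`, the point at infinity included, with
`H(x) ≤ X`, where `H` is the multiplicative height relative to `K`. -/
noncomputable def pointsUpTo (a b : K) (X : ℝ) : ℕ :=
  Nat.card {P : K × K // P.2 ^ 2 = P.1 ^ 3 + a * P.1 + b ∧ Height.mulHeight₁ P.1 ≤ X} + 1

/-- Good reduction at the finite place `v`. -/
def Good (E : WeierstrassCurve K) (v : HeightOneSpectrum (𝓞 K)) : Prop :=
  ((E.baseChange (v.adicCompletion K)).minimal (v.adicCompletionIntegers K)).HasGoodReduction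
    (v.adicCompletionIntegers K)

/-- The number `#E(k_v)` of points of the reduction (of a minimal model at `v`). -/
noncomputable def numPoints (E : WeierstrassCurve K) (v : HeightOneSpectrum (𝓞 K)) : ℕ :=
  Nat.card (((E.baseChange (v.adicCompletion K)).minimal
    (v.adicCompletionIntegers K)).reduction (v.adicCompletionIntegers K)).toAffine.Point

/-- `Π_c(X)`: the product over the finite places of good reduction with `q_v ≤ e^X` of the powers of
`#E(k_v) / q_v` with exponents `cos (c u) / Γ(1 + u)`, `u = log q_v / log X`. -/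
noncomputable def localProduct (E : WeierstrassCurve K) (c X : ℝ) : ℝ :=
  ∏ᶠ v ∈ {v : HeightOneSpectrum (𝓞 K) | Good E v ∧
      ((Ideal.absNorm v.asIdeal : ℕ) : ℝ) ≤ Real.exp X},
    ((numPoints E v : ℝ) / ((Ideal.absNorm v.asIdeal : ℕ) : ℝ)) ^
      (Real.cos (c * (Real.log ((Ideal.absNorm v.asIdeal : ℕ) : ℝ) / Real.log X)) /
        Real.Gamma (1 + Real.log ((Ideal.absNorm v.asIdeal : ℕ) : ℝ) / Real.log X))

theorem finite_set (E : WeierstrassCurve K) (X : ℝ) : {v : HeightOneSpectrum (𝓞 K) | Good E v ∧
      ((Ideal.absNorm v.asIdeal : ℕ) : ℝ) ≤ Real.exp X}.Finite := by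
  refine ((W189.NF.northcott_nm (K := K)).finite_le ⌊Real.exp X⌋₊).subset fun v hv => ?_
  exact Nat.le_floor hv.2

theorem quot_pos (E : WeierstrassCurve K) (v : HeightOneSpectrum (𝓞 K)) :
    0 < (numPoints E v : ℝ) / ((Ideal.absNorm v.asIdeal : ℕ) : ℝ) := by
  have h1 : 0 < numPoints E v := TH129.NFC.npts_pos E v
  have h2 : 2 ≤ (Ideal.absNorm v.asIdeal : ℕ) := H921R2.TatePole.two_le_nm v
  have h3 : (0 : ℝ) < numPoints E v := by exact_mod_cast h1
  have h4 : (0 : ℝ) < ((Ideal.absNorm v.asIdeal : ℕ) : ℝ) := by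
    have : 0 < (Ideal.absNorm v.asIdeal : ℕ) := by omega
    exact_mod_cast this
  positivity

theorem localProduct_pos (E : WeierstrassCurve K) (c X : ℝ) : 0 < localProduct E c X := by
  unfold localProduct
  rw [finprod_mem_eq_finite_toFinset_prod _ (finite_set E X)]
  exact Finset.prod_pos fun v _ => Real.rpow_pos_of_pos (quot_pos E v) _

theorem log_localProduct (E : WeierstrassCurve K) (c X : ℝ) :
    Real.log (localProduct E c X) = TH129.NFC.nfS E c X := by
  unfold localProduct TH129.NFC.nfS
  rw [finprod_mem_eq_finite_toFinset_prod _ (finite_set E X)]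
  have h1 : {v : HeightOneSpectrum (𝓞 K) | TH129.NFC.Good E v ∧
      (H921R2.TatePole.nm v : ℝ) ≤ Real.exp X} = {v : HeightOneSpectrum (𝓞 K) | Good E v ∧
      ((Ideal.absNorm v.asIdeal : ℕ) : ℝ) ≤ Real.exp X} := rfl
  rw [h1, finsum_mem_eq_finite_toFinset_sum _ (finite_set E X),
    Real.log_prod (fun v _ => (Real.rpow_pos_of_pos (quot_pos E v) _).ne')]
  refine Finset.sum_congr rfl fun v _ => ?_
  rw [Real.log_rpow (quot_pos E v)]
  rfl

end

theorem points_bounds {K : Type} [Field K] [NumberField K] {a b : K}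
    (hΔ : 4 * a ^ 3 + 27 * b ^ 2 ≠ 0) :
    ∃ A B : ℝ, 0 < A ∧ 0 < B ∧ ∀ᶠ X : ℝ in atTop,
      A * Real.log X ^ (rank a b : ℝ) ≤ (pointsUpTo a b X : ℝ) ^ 2 ∧
      (pointsUpTo a b X : ℝ) ^ 2 ≤ B * Real.log X ^ (rank a b : ℝ) := by
  obtain ⟨κ, hκ, h⟩ := TH129.NFC.ptsCount_growth hΔ
  refine ⟨(κ / 2) ^ 2, (2 * κ) ^ 2, by positivity, by positivity, ?_⟩
  have h1 : ∀ᶠ X : ℝ in atTop, κ / 2 < (TH129.NFC.ptsCount a b X : ℝ) /
      (Real.log X) ^ ((Module.finrank ℤ (TH942.SPt a b) : ℝ) / 2) :=
    h.eventually_const_lt (by linarith)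
  have h2 : ∀ᶠ X : ℝ in atTop, (TH129.NFC.ptsCount a b X : ℝ) /
      (Real.log X) ^ ((Module.finrank ℤ (TH942.SPt a b) : ℝ) / 2) < 2 * κ :=
    h.eventually_lt_const (by linarith)
  filter_upwards [h1, h2, eventually_gt_atTop 1] with X h3 h4 h5
  have hl : 0 < Real.log X := Real.log_pos h5
  have h6 : 0 < (Real.log X) ^ ((rank a b : ℝ) / 2) := Real.rpow_pos_of_pos hl _
  have h7 : ((Real.log X) ^ ((rank a b : ℝ) / 2)) ^ 2 = Real.log X ^ (rank a b : ℝ) := by
    rw [← Real.rpow_natCast, ← Real.rpow_mul hl.le]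
    congr 1
    push_cast
    ring
  change κ / 2 < (pointsUpTo a b X : ℝ) / (Real.log X) ^ ((rank a b : ℝ) / 2) at h3
  change (pointsUpTo a b X : ℝ) / (Real.log X) ^ ((rank a b : ℝ) / 2) < 2 * κ at h4
  rw [lt_div_iff₀ h6] at h3
  rw [div_lt_iff₀ h6] at h4
  rw [← h7, ← mul_pow, ← mul_pow]
  have h8 : (0 : ℝ) ≤ pointsUpTo a b X := Nat.cast_nonneg _
  constructor
  · exact pow_le_pow_left₀ (by positivity) h3.le 2
  · exact pow_le_pow_left₀ h8 h4.le 2

/-- **The rank conjecture over number fields is a finite local-global counting law.** -/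
theorem result (K : Type) [Field K] [NumberField K] (a b : K) (hΔ : 4 * a ^ 3 + 27 * b ^ 2 ≠ 0)
    (F : ℂ → ℂ) (hmer : ∀ x : ℝ, 1 ≤ x → x ≤ 2 → MeromorphicAt F (x : ℂ))
    (hF : ∀ s : ℂ, 2 < s.re → F s = (curve a b).LSeries s) :
    ∃ m : ℤ, meromorphicOrderAt F 1 = m ∧ ∀ c : ℝ, Real.pi / 2 < c →
      (∃ A B : ℝ, 0 < A ∧ 0 < B ∧ ∀ᶠ X : ℝ in atTop,
        A * Real.log X ^ ((rank a b : ℝ) - m) ≤
          (pointsUpTo a b X : ℝ) ^ 2 / localProduct (curve a b) c X ∧
        (pointsUpTo a b X : ℝ) ^ 2 / localProduct (curve a b) c X ≤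
          B * Real.log X ^ ((rank a b : ℝ) - m)) ∧
      List.TFAE [
        meromorphicOrderAt F 1 = ((rank a b : ℤ) : WithTop ℤ),
        ∃ A B : ℝ, 0 < A ∧ 0 < B ∧ ∀ᶠ X : ℝ in atTop,
          A * localProduct (curve a b) c X ≤ (pointsUpTo a b X : ℝ) ^ 2 ∧
          (pointsUpTo a b X : ℝ) ^ 2 ≤ B * localProduct (curve a b) c X,
        ∃ X : ℕ → ℝ, Tendsto X atTop atTop ∧
          Tendsto (fun n => Real.log ((pointsUpTo a b (X n) : ℝ) ^ 2 /
            localProduct (curve a b) c (X n)) / Real.log (Real.log (X n))) atTop (𝓝 0)] := by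
  have hD : (curve a b).Δ ≠ 0 := by
    have h1 : (curve a b).Δ = -16 * (4 * a ^ 3 + 27 * b ^ 2) := TH942.sw_Δ a b
    rw [h1]
    exact mul_ne_zero (by norm_num) hΔ
  obtain ⟨m, hm, h⟩ := TH129.NFC.nf_law hD (F := F) ⟨hmer, hF⟩
  refine ⟨m, hm, fun c hc => ?_⟩
  obtain ⟨C, hC⟩ := h c hc
  have hN0 : ∀ X, 0 < (pointsUpTo a b X : ℝ) ^ 2 := by
    intro X
    have h1 : 0 < pointsUpTo a b X := Nat.succ_pos _
    have h2 : (0 : ℝ) < pointsUpTo a b X := by exact_mod_cast h1
    positivity
  obtain ⟨h1, h2⟩ := TH129.NFC.law_tfae (N := fun X => (pointsUpTo a b X : ℝ) ^ 2)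
    (P := fun X => localProduct (curve a b) c X) (r := rank a b) (m := m) hN0
    (fun X => localProduct_pos _ c X) (points_bounds hΔ)
    ⟨C, by
      filter_upwards [hC] with X hX
      rw [log_localProduct]
      exact hX⟩
  refine ⟨h1, ?_⟩
  have h3 : (meromorphicOrderAt F 1 = ((rank a b : ℤ) : WithTop ℤ)) ↔ (rank a b : ℝ) = m := by
    rw [hm]
    constructor
    · intro h4
      have h5 : m = (rank a b : ℤ) := by exact_mod_cast h4
      rw [h5]
      simp
    · intro h4
      have h5 : ((rank a b : ℤ) : ℝ) = (m : ℝ) := by simpa using h4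
      have h6 : (rank a b : ℤ) = m := by exact_mod_cast h5
      rw [h6]
  rw [h3]
  exact h2

end Pool.Agent.Results.MP_cd906c_nt.CountingLaw
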