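import Mathlib
import Pool.Agent.TH562.S2.Final

set_option autoImplicit false

namespace Pool.Agent.Results.MP_cd906c_nt.SimultaneousTwists

/-- the curve `y² = (x - e₁ t) (x - e₂ t) (x - e₃ t)`, the quadratic twist by `t` of
`y² = (x - e₁) (x - e₂) (x - e₃)` -/
def twist (e₁ e₂ e₃ t : ℤ) : WeierstrassCurve ℚ where
  a₁ := 0
  a₂ := ((-(e₁ + e₂ + e₃) * t : ℤ) : ℚ)
  a₃ := 0
  a₄ := (((e₁ * e₂ + e₁ * e₃ + e₂ * e₃) * t ^ 2 : ℤ) : ℚ)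
  a₆ := ((-(e₁ * e₂ * e₃) * t ^ 3 : ℤ) : ℚ)

/-- the group of rational points contains a point of infinite order -/
def PositiveRank (W : WeierstrassCurve ℚ) : Prop :=
  ∃ P : W.toAffine.Point, ∀ m : ℤ, m • P = 0 → m = 0

theorem crv_eq (e₁ e₂ e₃ t : ℤ) :
    Pool.Agent.H918R3.crv ((e₁ : ℚ) * (t : ℚ)) ((e₂ : ℚ) * (t : ℚ)) ((e₃ : ℚ) * (t : ℚ)) =
      twist e₁ e₂ e₃ t := by
  unfold Pool.Agent.H918R3.crv twist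
  congr 1 <;> push_cast <;> ring

theorem pickf {e₁ e₂ e₃ f₁ f₂ f₃ s : ℤ} (h12 : e₁ ≠ e₂) (h13 : e₁ ≠ e₃) (h23 : e₂ ≠ e₃)
    (k12 : f₁ ≠ f₂) (k13 : f₁ ≠ f₃) (k23 : f₂ ≠ f₃) (hs : s ≠ 0) :
    ∃ k₁ k₂ k₃ : ℤ, k₁ ≠ k₂ ∧ k₁ ≠ k₃ ∧ k₂ ≠ k₃ ∧
      (∀ t : ℤ, twist k₁ k₂ k₃ t = twist f₁ f₂ f₃ t) ∧
      0 < s * ((e₂ - e₃) * (k₁ - k₂) - (e₁ - e₂) * (k₂ - k₃)) ∧
      (e₁ - e₂) * (e₃ - e₁) * (k₂ - k₃) + (e₁ - e₂) * (e₂ - e₃) * (k₃ - k₁) +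
        (e₂ - e₃) * (e₃ - e₁) * (k₁ - k₂) ≠ 0 := by
  have hper : ∀ k₁ k₂ k₃ : ℤ, k₁ + k₂ + k₃ = f₁ + f₂ + f₃ →
      k₁ * k₂ + k₁ * k₃ + k₂ * k₃ = f₁ * f₂ + f₁ * f₃ + f₂ * f₃ →
      k₁ * k₂ * k₃ = f₁ * f₂ * f₃ → ∀ t : ℤ, twist k₁ k₂ k₃ t = twist f₁ f₂ f₃ t := by
    intro k₁ k₂ k₃ h1 h2 h3 t
    unfold twist
    rw [h1, h2, h3]
  obtain ⟨x', y', z', h, h1, h2⟩ := Pool.Agent.TH562.S2.pick (α := e₁ - e₂) (β := e₂ - e₃)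
    (γ := e₃ - e₁) (x := f₁ - f₂) (y := f₂ - f₃) (z := f₃ - f₁) (sub_ne_zero.2 h12)
    (sub_ne_zero.2 h23) (sub_ne_zero.2 h13.symm) (by ring) (sub_ne_zero.2 k12) (sub_ne_zero.2 k23)
    (sub_ne_zero.2 k13.symm) (by ring) hs
  rcases h with ⟨rfl, rfl, rfl⟩ | ⟨rfl, rfl, rfl⟩ | ⟨rfl, rfl, rfl⟩ | ⟨rfl, rfl, rfl⟩ |
    ⟨rfl, rfl, rfl⟩ | ⟨rfl, rfl, rfl⟩
  · exact ⟨f₁, f₂, f₃, k12, k13, k23, hper _ _ _ rfl rfl rfl, h1, h2⟩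
  · exact ⟨f₂, f₃, f₁, k23, k12.symm, k13.symm, hper _ _ _ (by ring) (by ring) (by ring), h1, h2⟩
  · exact ⟨f₃, f₁, f₂, k13.symm, k23.symm, k12, hper _ _ _ (by ring) (by ring) (by ring), h1, h2⟩
  · refine ⟨f₂, f₁, f₃, k12.symm, k23, k13, hper _ _ _ (by ring) (by ring) (by ring), ?_, ?_⟩
    · convert h1 using 2; ring
    · intro h0; apply h2; rw [← h0]; ring
  · refine ⟨f₁, f₃, f₂, k13, k12, k23.symm, hper _ _ _ (by ring) (by ring) (by ring), ?_, ?_⟩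
    · convert h1 using 2; ring
    · intro h0; apply h2; rw [← h0]; ring
  · refine ⟨f₃, f₂, f₁, k23.symm, k13.symm, k12.symm, hper _ _ _ (by ring) (by ring) (by ring),
      ?_, ?_⟩
    · convert h1 using 2; ring
    · intro h0; apply h2; rw [← h0]; ring

open Classical in
theorem result (e₁ e₂ e₃ f₁ f₂ f₃ : ℤ) (h12 : e₁ ≠ e₂) (h13 : e₁ ≠ e₃) (h23 : e₂ ≠ e₃)
    (k12 : f₁ ≠ f₂) (k13 : f₁ ≠ f₃) (k23 : f₂ ≠ f₃) (ε : ℤ) (hε : ε = 1 ∨ ε = -1) :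
    ∃ h : ℕ, Squarefree h ∧ ∀ M : ℕ, 0 < M → ∀ δ : ℝ, 0 < δ → ∃ C : ℝ, 0 < C ∧
      ∀ᶠ N : ℕ in Filter.atTop, (((Finset.Icc 1 N).filter fun x : ℕ => ¬ ∃ d : ℕ,
        (x : ℝ) ≤ (h * d : ℕ) ∧ ((h * d : ℕ) : ℝ) ≤ x + C * (x : ℝ) ^ ((3 : ℝ) / 4) ∧
        Squarefree (h * d) ∧ d ≡ 1 [MOD M] ∧
        PositiveRank (twist e₁ e₂ e₃ (ε * (h * d : ℕ))) ∧
        PositiveRank (twist f₁ f₂ f₃ (ε * (h * d : ℕ)))).card : ℝ) ≤ δ * N := by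
  have hn : (e₁ - e₂) * (e₂ - e₃) * (e₃ - e₁) ≠ 0 :=
    mul_ne_zero (mul_ne_zero (sub_ne_zero.2 h12) (sub_ne_zero.2 h23)) (sub_ne_zero.2 h13.symm)
  have hε0 : ε ≠ 0 := by
    rcases hε with rfl | rfl <;> norm_num
  obtain ⟨k₁, k₂, k₃, l12, l13, l23, hper, hpos, hσ⟩ := pickf h12 h13 h23 k12 k13 k23
    (s := ε * ((e₁ - e₂) * (e₂ - e₃) * (e₃ - e₁))) (mul_ne_zero hε0 hn)
  obtain ⟨K, hK⟩ : ∃ K : ℤ, K = (e₁ - e₂) * (e₂ - e₃) * (e₃ - e₁) *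
      ((e₂ - e₃) * (k₁ - k₂) - (e₁ - e₂) * (k₂ - k₃)) := ⟨_, rfl⟩
  have hpos' : 0 < ε * K := by
    rw [hK, ← mul_assoc]; exact hpos
  have hK0 : K ≠ 0 := by
    rintro h0
    rw [h0, mul_zero] at hpos'
    exact absurd hpos' (lt_irrefl _)
  have hsign : K.sign = ε := by
    rcases hε with rfl | rfl
    · exact Int.sign_eq_one_of_pos (by linarith)
    · exact Int.sign_eq_neg_one_of_neg (by linarith)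
  obtain ⟨h, g, hhg, hh⟩ := Nat.sq_mul_squarefree K.natAbs
  have hhg' : h * g ^ 2 = K.natAbs := by
    rw [← hhg]; ring
  refine ⟨h, hh, fun M hM δ hδ => ?_⟩
  obtain ⟨C, hC, hN⟩ := Pool.Agent.TH562.S2.main h12 h13 h23 l12 l13 l23 (hK ▸ hK0) hσ hh
    (hhg'.trans (by rw [hK])) hM hδ
  refine ⟨C, hC, ?_⟩
  filter_upwards [hN] with N hN
  refine le_trans (Nat.cast_le.2 (Finset.card_le_card ?_)) hN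
  intro x hx
  obtain ⟨hx1, hx2⟩ := Finset.mem_filter.1 hx
  refine Finset.mem_filter.2 ⟨hx1, fun hex => hx2 ?_⟩
  obtain ⟨d, hd1, hd2, hd3, hd4, hd5, hd6⟩ := hex
  rw [← hK, hsign] at hd5 hd6
  refine ⟨d, by exact_mod_cast hd1, hd2, hd3, hd4, ?_, ?_⟩
  · have h5 : PositiveRank (Pool.Agent.H918R3.crv _ _ _) := hd5
    rw [crv_eq] at h5
    exact h5
  · have h5 : PositiveRank (Pool.Agent.H918R3.crv _ _ _) := hd6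
    rw [crv_eq, hper] at h5
    exact h5

end Pool.Agent.Results.MP_cd906c_nt.SimultaneousTwists
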