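import Mathlib
import Pool.Agent.TH861.SC.Main

set_option autoImplicit false

/-!
# Sums of two rational cubes in every short interval, in residue classes

For every `M ≥ 1` there is `C` such that for every real `X ≥ 1` and every residue class `a mod M`
containing squarefree integers (`gcd(a, M)` squarefree), the interval `[X, X + C X^(3/5)]` contains
at least `X^(1/15)` squarefree integers `m ≡ a mod M` for which `x^3 + y^3 = m` has infinitely many
rational points.
-/

namespace Pool.Agent.Results.MP_cd906c_nt.SumsOfTwoCubesEveryInterval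

theorem result (M : ℕ) (hM : 0 < M) :
    ∃ C : ℝ, ∀ X : ℝ, 1 ≤ X → ∀ a : ℤ, Squarefree (Int.gcd a M) →
      ∃ F : Finset ℤ, X ^ (1 / 15 : ℝ) ≤ (F.card : ℝ) ∧
        ∀ m ∈ F, X ≤ (m : ℝ) ∧ (m : ℝ) ≤ X + C * X ^ (3 / 5 : ℝ) ∧ Squarefree m ∧
          m ≡ a [ZMOD M] ∧ {P : ℚ × ℚ | P.1 ^ 3 + P.2 ^ 3 = m}.Infinite :=
  Pool.Agent.TH861.SC.every_interval M hM

end Pool.Agent.Results.MP_cd906c_nt.SumsOfTwoCubesEveryInterval
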